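import Mathlib

set_option autoImplicit false

namespace Pool.Agent.Results.MP_bdbea1_co.Stable

open SimpleGraph

/-- chordal: no chordless (induced) cycle of length at least `4` -/
def Chordal {V : Type} (H : SimpleGraph V) : Prop := ∀ k, 4 ≤ k → IsEmpty (cycleGraph k ↪g H)

/-- co-chordal: the complement is chordal -/
def CoChordal {V : Type} (H : SimpleGraph V) : Prop := Chordal Hᶜ

/-- the graph of `s`-jets -/
def jet {V : Type} (G : SimpleGraph V) (s : ℕ) : SimpleGraph (V × Fin (s + 1)) where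
  Adj x y := G.Adj x.1 y.1 ∧ x.2.1 + y.2.1 ≤ s
  symm := ⟨fun _ _ h => ⟨h.1.symm, by have := h.2; omega⟩⟩
  loopless := ⟨fun _ h => h.1.ne rfl⟩

lemma tri (n : ℕ) (u v w : Fin (n + 4)) (h1 : (cycleGraph (n + 4)).Adj u v)
    (h2 : (cycleGraph (n + 4)).Adj v w) : ¬ (cycleGraph (n + 4)).Adj u w := by
  intro h3
  have k : ∀ a b : Fin (n + 4), (a - b).val = 1 → a.1 = b.1 + 1 ∨ (a.1 = 0 ∧ b.1 = n + 3) := by
    intro a b h
    have := b.2
    rcases le_or_gt b a with l | l
    · rw [Fin.sub_val_of_le l] at h; omega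
    · rw [Fin.coe_sub_iff_lt.2 l] at h; omega
  rw [cycleGraph_adj'] at h1 h2 h3
  have := h1.imp (k _ _) (k _ _)
  have := h2.imp (k _ _) (k _ _)
  have := h3.imp (k _ _) (k _ _)
  omega

lemma other (n : ℕ) (u v : Fin (n + 4)) : ∃ w, w ≠ v ∧ (cycleGraph (n + 4)).Adj u w := by
  have h : (cycleGraph (n + 1 + 3)).degree u = 2 := cycleGraph_degree_three_le
  obtain ⟨w, hw, hv⟩ := Finset.exists_mem_ne (s := (cycleGraph (n + 1 + 3)).neighborFinset u)
    (by rw [card_neighborFinset_eq_degree, h]; omega) v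
  exact ⟨w, hv, by simpa using hw⟩

lemma stable {V : Type} (G : SimpleGraph V) (h : CoChordal (jet G 2)) (s : ℕ) : CoChordal (jet G s) := by
  intro k hk
  obtain ⟨n, rfl⟩ : ∃ n, k = n + 4 := ⟨k - 4, by omega⟩
  refine ⟨fun e => ?_⟩
  have ad : ∀ u v, u ≠ v → ((cycleGraph (n + 4)).Adj u v ↔
      ¬ (G.Adj (e u).1 (e v).1 ∧ (e u).2.1 + (e v).2.1 ≤ s)) := fun u v h => by
    rw [← e.map_adj_iff, compl_adj, and_iff_right (e.injective.ne h)]; rfl
  have inj : ∀ u v, u ≠ v → (e u).1 = (e v).1 → (e u).2.1 ≤ (e v).2.1 → False := by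
    intro u v h e1 l
    have a := (ad u v h).2 fun c => c.1.ne e1
    obtain ⟨w, w1, w2⟩ := other n u v
    refine tri n v u w a.symm w2 ((ad v w w1.symm).2 fun c => (ad u w w2.ne).1 w2 ⟨e1 ▸ c.1, ?_⟩)
    have := c.2; omega
  have inj' : ∀ u v, (e u).1 = (e v).1 → u = v := fun u v e1 => by
    by_contra h
    rcases le_total (e u).2.1 (e v).2.1 with l | l
    · exact inj u v h e1 l
    · exact inj v u (Ne.symm h) e1.symm l
  obtain ⟨x, hx⟩ := Finite.exists_max fun u => (e u).2.1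
  let b : Fin (n + 4) → Fin 3 := fun v => if v = x then 2 else if s < (e v).2.1 + (e x).2.1 then 1 else 0
  have hb : ∀ u v, u ≠ v → ((b u).1 + (b v).1 ≤ 2 ↔ (e u).2.1 + (e v).2.1 ≤ s) := fun u v h => by
    have := hx u; have := hx v
    by_cases h1 : u = x
    · subst h1; simp only [b, if_pos rfl, if_neg h.symm]; split_ifs <;> simp <;> omega
    by_cases h2 : v = x
    · subst h2; simp only [b, if_pos rfl, if_neg h]; split_ifs <;> simp <;> omega
    have : (e u).2.1 + (e v).2.1 ≤ s := by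
      by_contra c
      exact tri n u x v ((ad u x h1).2 fun d => by have := d.2; omega)
        ((ad x v (Ne.symm h2)).2 fun d => by have := d.2; omega) ((ad u v h).2 fun d => c d.2)
    simp only [b, if_neg h1, if_neg h2]
    split_ifs <;> simp <;> omega
  refine (h (n + 4) hk).false
    ⟨⟨fun v => ((e v).1, b v), fun u v h => inj' u v (Prod.ext_iff.1 h).1⟩, fun {u v} => ?_⟩
  by_cases h : u = v
  · subst h; simp
  · rw [ad u v h, ← hb u v h]
    exact (compl_adj _ _ _).trans (and_iff_right (fun c => h (inj' u v (Prod.ext_iff.1 c).1)))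

theorem result : (∀ (V : Type) (G : SimpleGraph V), CoChordal (jet G 2) → ∀ s, CoChordal (jet G s)) ∧
    ∀ n, 2 ≤ n → ¬ ∃ (m : ℕ) (G : SimpleGraph (Fin m)), CoChordal G ∧ G.ediam = 2 ∧
      (∀ i, 1 ≤ i → i ≤ n → CoChordal (jet G i)) ∧ ¬ CoChordal (jet G (n + 1)) :=
  ⟨fun _ => stable, fun _ hn ⟨_, G, _, _, h1, h2⟩ => h2 (stable G (h1 2 (by omega) hn) _)⟩

end Pool.Agent.Results.MP_bdbea1_co.Stable
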